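import Mathlib
import Pool.Agent.Y18.LC.Loc

/-!
# Project SG (helper5), job KU: characters trivial on the group of `K(ζ, r(u))`
-/

set_option autoImplicit false

namespace Pool.Agent.Q84.SG

/-- the kernel of the job KU: general fields -/
theorem ku_core {p : ℕ} (hp : p.Prime) {K M : Type} [Field K] [Field M] [Algebra K M]
    {m : ℕ} (hm : m ≠ 0) {ζ : M} (hζ : IsPrimitiveRoot ζ (p ^ m)) {ι : Type} (r : ι → M)
    (u : ι → K) (hu : ∀ i, u i ≠ 0) (hr : ∀ i, r i ^ p ^ m = algebraMap K M (u i))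
    (ψ : (M ≃ₐ[K] M) →* ℂˣ)
    (hψ : ∀ g : M ≃ₐ[K] M, g ζ = ζ → (∀ i, g (r i) = r i) → ψ g = 1)
    (g : M ≃ₐ[K] M) (hg : g (ζ ^ p ^ (m - 1)) ≠ ζ ^ p ^ (m - 1))
    (a : M ≃ₐ[K] M) (ha : a ζ = ζ) : ψ a = 1 := by
  classical
  have hpm : 0 < p ^ m := pow_pos hp.pos _
  have : NeZero (p ^ m) := ⟨hpm.ne'⟩
  have hr0 : ∀ i, r i ≠ 0 := by
    intro i h0
    have h1 := hr i
    rw [h0, zero_pow hpm.ne'] at h1
    exact hu i ((map_eq_zero (algebraMap K M)).1 h1.symm)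
  -- every automorphism multiplies the roots by powers of `ζ`
  have key : ∀ (s : M ≃ₐ[K] M) (i : ι), ∃ e : ℕ, s (r i) = ζ ^ e * r i := by
    intro s i
    have h1 : (s (r i) / r i) ^ p ^ m = 1 := by
      rw [div_pow, ← map_pow, hr, AlgEquiv.commutes, div_self]
      rw [← hr]
      exact pow_ne_zero _ (hr0 i)
    obtain ⟨e, -, he⟩ := hζ.eq_pow_of_pow_eq_one h1
    exact ⟨e, by rw [he, div_mul_cancel₀ _ (hr0 i)]⟩
  have keyζ : ∀ s : M ≃ₐ[K] M, ∃ κ : ℕ, s ζ = ζ ^ κ := by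
    intro s
    have h1 : (s ζ) ^ p ^ m = 1 := by rw [← map_pow, hζ.pow_eq_one, map_one]
    obtain ⟨e, -, he⟩ := hζ.eq_pow_of_pow_eq_one h1
    exact ⟨e, he.symm⟩
  -- powers of `a`
  have apow : ∀ (i : ι) (e : ℕ), a (r i) = ζ ^ e * r i → ∀ n : ℕ, (a ^ n) (r i) = ζ ^ (e * n) * r i := by
    intro i e he n
    induction n with
    | zero => simp
    | succ n ih =>
      rw [pow_succ', AlgEquiv.mul_apply, ih, map_mul, map_pow, ha, he, Nat.mul_succ, pow_add]
      ring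
  have aζ : ∀ n : ℕ, (a ^ n) ζ = ζ := by
    intro n
    induction n with
    | zero => simp
    | succ n ih => rw [pow_succ', AlgEquiv.mul_apply, ih, ha]
  -- the order of `ψ a` is a power of `p`
  have h1 : ψ a ^ p ^ m = 1 := by
    rw [← map_pow]
    refine hψ _ (aζ _) fun i => ?_
    obtain ⟨e, he⟩ := key a i
    rw [apow i e he, pow_mul', hζ.pow_eq_one, one_pow, one_mul]
  -- conjugation by `g`
  obtain ⟨κ, hκ⟩ := keyζ g
  have h2 : ψ a ^ κ = ψ a := by
    have h3 : ψ ((g * a * g⁻¹)⁻¹ * a ^ κ) = 1 := by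
      refine hψ _ ?_ fun i => ?_
      · rw [AlgEquiv.mul_apply, aζ]
        obtain ⟨b, hb⟩ := keyζ g⁻¹
        have h4 : (g * a * g⁻¹) ζ = ζ := by
          rw [AlgEquiv.mul_apply, hb, map_pow, AlgEquiv.mul_apply, ha, ← map_pow, ← hb,
            ← AlgEquiv.mul_apply, mul_inv_cancel, AlgEquiv.one_apply]
        conv_lhs => rw [← h4]
        rw [← AlgEquiv.mul_apply, inv_mul_cancel, AlgEquiv.one_apply]
      · obtain ⟨e, he⟩ := key a i
        obtain ⟨b, hb⟩ := key g⁻¹ i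
        have h4 : (g * a * g⁻¹) (r i) = (a ^ κ) (r i) := by
          rw [apow i e he, AlgEquiv.mul_apply, hb, AlgEquiv.mul_apply]
          have h5 : a (ζ ^ b * r i) = ζ ^ e * g⁻¹ (r i) := by
            rw [hb, map_mul, map_pow, ha, he]
            ring
          rw [h5, map_mul, map_pow, hκ, ← AlgEquiv.mul_apply, mul_inv_cancel, AlgEquiv.one_apply,
            ← pow_mul, mul_comm κ e]
        rw [AlgEquiv.mul_apply, ← h4, ← AlgEquiv.mul_apply, inv_mul_cancel, AlgEquiv.one_apply]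
    rw [map_mul, map_inv, map_mul, map_mul, map_inv, map_pow] at h3
    have h6 : ψ g * ψ a * (ψ g)⁻¹ = ψ a := by
      rw [mul_comm (ψ g) (ψ a), mul_assoc, mul_inv_cancel, mul_one]
    rw [h6] at h3
    exact (inv_mul_eq_one.1 h3).symm
  -- `p` does not divide `κ - 1`
  have h7 : ¬ (p : ℤ) ∣ (κ : ℤ) - 1 := by
    intro hd
    apply hg
    have hω : (ζ ^ p ^ (m - 1)) ^ p = 1 := by
      rw [← pow_mul, ← pow_succ, Nat.sub_add_cancel (Nat.one_le_iff_ne_zero.2 hm), hζ.pow_eq_one]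
    rw [map_pow, hκ, ← pow_mul, mul_comm κ, pow_mul]
    obtain ⟨q, hq⟩ := hd
    rcases Nat.eq_zero_or_pos κ with h0 | h0
    · exfalso
      rw [h0] at hq
      have h9 : (p : ℤ) ∣ 1 := ⟨-q, by push_cast at hq; linarith⟩
      exact hp.one_lt.ne' (by exact_mod_cast Int.eq_one_of_dvd_one (by positivity) h9)
    · have h9 : p ∣ κ - 1 := by
        rw [← Int.natCast_dvd_natCast, Nat.cast_sub h0]
        exact ⟨q, by push_cast; exact hq⟩
      obtain ⟨t, ht⟩ := h9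
      have h10 : κ = p * t + 1 := by omega
      rw [h10, pow_succ, pow_mul, hω, one_pow, one_mul]
  -- conclusion
  have h8 : (orderOf (ψ a) : ℤ) ∣ (κ : ℤ) - 1 := by
    rw [orderOf_dvd_iff_zpow_eq_one, zpow_sub_one, zpow_natCast, h2, mul_inv_cancel]
  have h9 : orderOf (ψ a) ∣ p ^ m := orderOf_dvd_of_pow_eq_one h1
  obtain ⟨i, -, hi⟩ := (Nat.dvd_prime_pow hp).1 h9
  rcases Nat.eq_zero_or_pos i with h0 | h0
  · rw [h0, pow_zero] at hi
    exact orderOf_eq_one_iff.1 hi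
  · exfalso
    apply h7
    refine dvd_trans ?_ h8
    rw [hi]
    exact Int.natCast_dvd_natCast.2 (dvd_pow_self p h0.ne')

open NumberField Pool.Agent.Y18.LC

/-- the statement of the job KU -/
theorem ku' : ∀ (p : ℕ) [Fact p.Prime], p ≠ 2 → ∀ (K M : Type) [Field K] [NumberField K]
    [Field M] [NumberField M] [Algebra K M] [IsGalois K M], Unram K p → ∀ (m : ℕ) (ζ : M)
    (r : (𝓞 K)ˣ → M), IsPrimitiveRoot ζ (p ^ m) →
    (∀ u : (𝓞 K)ˣ, r u ^ p ^ m = algebraMap K M ((u : 𝓞 K) : K)) → ∀ ψ : (M ≃ₐ[K] M) →* ℂˣ,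
    (∀ g : M ≃ₐ[K] M, g ζ = ζ → (∀ u, g (r u) = r u) → ψ g = 1) →
    ∀ g : M ≃ₐ[K] M, g ζ = ζ → ψ g = 1 := by
  intro p _ hp2 K M _ _ _ _ _ _ hun m ζ r hζ hr ψ hψ a ha
  have hp : p.Prime := Fact.out
  rcases Nat.eq_zero_or_pos m with h0 | h0
  · subst h0
    refine hψ a ha fun u => ?_
    have h1 := hr u
    rw [pow_zero, pow_one] at h1
    rw [h1, AlgEquiv.commutes]
  · -- some automorphism does not fix the primitive `p`-th root of unity
    have hω : IsPrimitiveRoot (ζ ^ p ^ (m - 1)) p := by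
      have h1 := hζ.pow (pow_pos hp.pos m) (a := p ^ (m - 1)) (b := p)
        (by rw [← pow_succ, Nat.sub_add_cancel h0])
      exact h1
    have hex : ∃ g : M ≃ₐ[K] M, g (ζ ^ p ^ (m - 1)) ≠ ζ ^ p ^ (m - 1) := by
      by_contra hne
      push Not at hne
      have h1 : ζ ^ p ^ (m - 1) ∈ (⊥ : IntermediateField K M) :=
        (IsGalois.mem_bot_iff_fixed _).2 hne
      obtain ⟨w, hw⟩ := IntermediateField.mem_bot.1 h1
      have hw1 : w ^ p = 1 := by
        apply (algebraMap K M).injective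
        rw [map_pow, hw, hω.pow_eq_one, map_one]
      have hint : IsIntegral ℤ w := by
        refine IsIntegral.of_pow hp.pos ?_
        rw [hw1]
        exact isIntegral_one
      obtain ⟨z, hz⟩ : ∃ z : 𝓞 K, algebraMap (𝓞 K) K z = w := ⟨⟨w, hint⟩, rfl⟩
      have h2 : z ^ p = 1 := by
        apply RingOfIntegers.coe_injective
        rw [map_pow, hz, hw1, map_one]
      have h3 := no_torsion hp hp2 hun h2
      have h4 : w = 1 := by rw [← hz, h3, map_one]
      rw [h4, map_one] at hw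
      exact hp.one_lt.ne' (hω.unique (by rw [← hw]; exact IsPrimitiveRoot.one))
    obtain ⟨g, hg⟩ := hex
    exact ku_core hp h0.ne' hζ r (fun u => ((u : 𝓞 K) : K)) (fun u => by simp) hr ψ hψ g hg a ha

end Pool.Agent.Q84.SG
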