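import Pool.Agent.Q5.SG.Stm2
import Pool.Agent.Q84.SG.KUcore

/-!
# Project SG (helper5), job KU
-/

set_option autoImplicit false

namespace Pool.Agent.Q84.SG

theorem ku : Pool.Agent.Q5.SG.S_KU := ku'

end Pool.Agent.Q84.SG
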